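import Mathlib

/-!
# `MP_cfc379_co`: maximum nullity versus zero forcing for bipartite graphs with one side of
degree 3

The incidence graph of the Fano plane in which every line is taken nine times (63 lines, 7 points)
is a connected bipartite graph, every line has degree 3 and there are more lines than points, but
its maximum nullity is at most `61` while its zero forcing number is at least `62`:
the zero forcing number is bounded below by the nullity over `ZMod 2`, where the rank is `8`,
while every real symmetric matrix of the graph has rank at least `9`, since the Fano plane is not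
representable over the reals.
-/

namespace Pool.Agent.Results.MP_cfc379_co.FanoMultiples

open Matrix Module

/-- `A ∈ S(G)`: `A` is a real symmetric matrix whose off-diagonal nonzero entries are exactly the
edges of `G`. -/
def IsPattern {V : Type*} (G : SimpleGraph V) (A : Matrix V V ℝ) : Prop :=
  A.IsSymm ∧ ∀ i j, i ≠ j → (A i j ≠ 0 ↔ G.Adj i j)

/-- The dimension of the kernel of `A`. -/
noncomputable def nullity {V : Type*} [Fintype V] (A : Matrix V V ℝ) : ℕ :=
  finrank ℝ (LinearMap.ker A.mulVecLin)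

/-- The maximum nullity `M(G)`. -/
noncomputable def maxNullity {V : Type*} [Fintype V] (G : SimpleGraph V) : ℕ :=
  sSup {k | ∃ A : Matrix V V ℝ, IsPattern G A ∧ nullity A = k}

/-- The vertices that are eventually filled by the colour change rule, starting from the filled
set `B`: if a filled vertex `u` has `w` as its only unfilled neighbour, then `w` becomes filled. -/
inductive Filled {V : Type*} (G : SimpleGraph V) (B : Set V) : V → Prop
  | init (v : V) (h : v ∈ B) : Filled G B v
  | force (u w : V) (hu : Filled G B u) (huw : G.Adj u w)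
      (h : ∀ x, G.Adj u x → x ≠ w → Filled G B x) : Filled G B w

/-- `B` is a zero forcing set of `G`. -/
def IsZeroForcing {V : Type*} (G : SimpleGraph V) (B : Finset V) : Prop :=
  ∀ v, Filled G (B : Set V) v

/-- The zero forcing number `Z(G)`. -/
noncomputable def zeroForcingNumber {V : Type*} (G : SimpleGraph V) : ℕ :=
  sInf {k | ∃ B : Finset V, IsZeroForcing G B ∧ B.card = k}

/-- The assertion of Q1. -/
def Q1 : Prop :=
  ∀ (V : Type) [Fintype V] [DecidableEq V] (G : SimpleGraph V) (X Y : Finset V),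
    G.Connected → Disjoint X Y → X ∪ Y = Finset.univ →
    (∀ u v, G.Adj u v → (u ∈ X ∧ v ∈ Y) ∨ (u ∈ Y ∧ v ∈ X)) →
    Y.card ≤ X.card → (∀ x ∈ X, (G.neighborSet x).ncard = 3) →
    maxNullity G = zeroForcingNumber G

/-! ### Zero forcing and kernels over any field -/

theorem ker_zero {F V : Type*} [Field F] [Fintype V] {G : SimpleGraph V} {A : Matrix V V F}
    (hA : ∀ i j, i ≠ j → (A i j ≠ 0 ↔ G.Adj i j)) {B : Set V} {v : V → F}
    (hv : A.mulVec v = 0) (hB : ∀ b ∈ B, v b = 0) (w : V) (hw : Filled G B w) : v w = 0 := by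
  induction hw with
  | init w h => exact hB w h
  | force u w hu huw h ihu ih =>
    have hs : ∑ j, A u j * v j = 0 := congrFun hv u
    rw [Finset.sum_eq_single w] at hs
    · have hne : A u w ≠ 0 := (hA u w huw.ne).2 huw
      exact (mul_eq_zero.1 hs).resolve_left hne
    · intro j _ hj
      by_cases hju : j = u
      · rw [hju, ihu, mul_zero]
      · by_cases hadj : G.Adj u j
        · rw [ih j hadj hj, mul_zero]
        · have : A u j = 0 := by
            by_contra hne
            exact hadj ((hA u j (Ne.symm hju)).1 hne)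
          rw [this, zero_mul]
    · intro hnot
      exact absurd (Finset.mem_univ _) hnot

theorem finrank_ker_le {F V : Type*} [Field F] [Fintype V] {G : SimpleGraph V}
    {A : Matrix V V F} (hA : ∀ i j, i ≠ j → (A i j ≠ 0 ↔ G.Adj i j)) {B : Finset V}
    (hB : IsZeroForcing G B) : finrank F (LinearMap.ker A.mulVecLin) ≤ B.card := by
  let L : LinearMap.ker A.mulVecLin →ₗ[F] (B → F) :=
    (LinearMap.funLeft F F (Subtype.val : B → V)).comp (LinearMap.ker A.mulVecLin).subtype
  have hL : Function.Injective L := by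
    rw [← LinearMap.ker_eq_bot, LinearMap.ker_eq_bot']
    intro v hv
    have hv' : A.mulVec v.1 = 0 := v.2
    ext w
    refine ker_zero hA hv' ?_ w (hB w)
    intro b hb
    exact congrFun hv ⟨b, hb⟩
  have h := LinearMap.finrank_le_finrank_of_injective hL
  simpa using h

/-! ### The Fano plane is not real -/

/-- The incidence relation of the Fano plane. -/
def inc (l p : Fin 7) : Bool :=
  decide (p ∈ (![[1, 3, 5], [0, 3, 4], [2, 3, 6], [0, 1, 2], [1, 4, 6], [0, 5, 6], [2, 4, 5]] :
    Fin 7 → List (Fin 7)) l)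

theorem fano_ker {B : Matrix (Fin 7) (Fin 7) ℝ} (hB : ∀ l p, B l p ≠ 0 ↔ inc l p = true) :
    finrank ℝ (LinearMap.ker B.mulVecLin) ≤ 2 := by
  have z : ∀ l p, inc l p = false → B l p = 0 := by
    intro l p h
    by_contra hne
    rw [(hB l p).1 hne] at h
    exact absurd h (by decide)
  have nz : ∀ l p, inc l p = true → B l p ≠ 0 := fun l p h => (hB l p).2 h
  -- the row equations
  have rows : ∀ y ∈ LinearMap.ker B.mulVecLin,
      B 0 1 * y 1 + B 0 3 * y 3 + B 0 5 * y 5 = 0 ∧
      B 1 0 * y 0 + B 1 3 * y 3 + B 1 4 * y 4 = 0 ∧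
      B 2 2 * y 2 + B 2 3 * y 3 + B 2 6 * y 6 = 0 ∧
      B 3 0 * y 0 + B 3 1 * y 1 + B 3 2 * y 2 = 0 ∧
      B 4 1 * y 1 + B 4 4 * y 4 + B 4 6 * y 6 = 0 ∧
      B 5 0 * y 0 + B 5 5 * y 5 + B 5 6 * y 6 = 0 ∧
      B 6 2 * y 2 + B 6 4 * y 4 + B 6 5 * y 5 = 0 := by
    intro y hy
    have hy' : B.mulVec y = 0 := hy
    have h : ∀ l, ∑ j, B l j * y j = 0 := fun l => congrFun hy' l
    have h0 := h 0
    have h1 := h 1
    have h2 := h 2
    have h3 := h 3
    have h4 := h 4
    have h5 := h 5
    have h6 := h 6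
    rw [Fin.sum_univ_seven] at h0 h1 h2 h3 h4 h5 h6
    rw [z 0 0 (by decide), z 0 2 (by decide), z 0 4 (by decide), z 0 6 (by decide)] at h0
    rw [z 1 1 (by decide), z 1 2 (by decide), z 1 5 (by decide), z 1 6 (by decide)] at h1
    rw [z 2 0 (by decide), z 2 1 (by decide), z 2 4 (by decide), z 2 5 (by decide)] at h2
    rw [z 3 3 (by decide), z 3 4 (by decide), z 3 5 (by decide), z 3 6 (by decide)] at h3
    rw [z 4 0 (by decide), z 4 2 (by decide), z 4 3 (by decide), z 4 5 (by decide)] at h4
    rw [z 5 1 (by decide), z 5 2 (by decide), z 5 3 (by decide), z 5 4 (by decide)] at h5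
    rw [z 6 0 (by decide), z 6 1 (by decide), z 6 3 (by decide), z 6 6 (by decide)] at h6
    refine ⟨?_, ?_, ?_, ?_, ?_, ?_, ?_⟩
    · linear_combination h0
    · linear_combination h1
    · linear_combination h2
    · linear_combination h3
    · linear_combination h4
    · linear_combination h5
    · linear_combination h6
  by_contra hcon
  push Not at hcon
  let e : LinearMap.ker B.mulVecLin →ₗ[ℝ] (Fin 3 → ℝ) :=
    (LinearMap.funLeft ℝ ℝ (![0, 1, 3] : Fin 3 → Fin 7)).comp
      (LinearMap.ker B.mulVecLin).subtype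
  have he : Function.Injective e := by
    rw [← LinearMap.ker_eq_bot, LinearMap.ker_eq_bot']
    intro y hy
    obtain ⟨h0, h1, h2, h3, h4, h5, h6⟩ := rows y.1 y.2
    have y0 : y.1 0 = 0 := congrFun hy 0
    have y1 : y.1 1 = 0 := congrFun hy 1
    have y3 : y.1 3 = 0 := congrFun hy 2
    have y5 : y.1 5 = 0 := by
      have : B 0 5 * y.1 5 = 0 := by rw [y1, y3] at h0; linear_combination h0
      exact (mul_eq_zero.1 this).resolve_left (nz 0 5 (by decide))
    have y4 : y.1 4 = 0 := by
      have : B 1 4 * y.1 4 = 0 := by rw [y0, y3] at h1; linear_combination h1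
      exact (mul_eq_zero.1 this).resolve_left (nz 1 4 (by decide))
    have y2 : y.1 2 = 0 := by
      have : B 3 2 * y.1 2 = 0 := by rw [y0, y1] at h3; linear_combination h3
      exact (mul_eq_zero.1 this).resolve_left (nz 3 2 (by decide))
    have y6 : y.1 6 = 0 := by
      have : B 5 6 * y.1 6 = 0 := by rw [y0, y5] at h5; linear_combination h5
      exact (mul_eq_zero.1 this).resolve_left (nz 5 6 (by decide))
    ext i
    fin_cases i
    · exact y0
    · exact y1
    · exact y2
    · exact y3
    · exact y4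
    · exact y5
    · exact y6
  have hle := LinearMap.finrank_le_finrank_of_injective he
  have hfin : finrank ℝ (Fin 3 → ℝ) = 3 := by simp
  have heq : finrank ℝ (LinearMap.ker B.mulVecLin) = finrank ℝ (Fin 3 → ℝ) := by omega
  have hsurj : Function.Surjective e :=
    (LinearMap.injective_iff_surjective_of_finrank_eq_finrank heq).1 he
  obtain ⟨u, hu⟩ := hsurj ![1, 0, 0]
  obtain ⟨v, hv⟩ := hsurj ![0, 1, 0]
  obtain ⟨w, hw⟩ := hsurj ![0, 0, 1]
  have u0 : u.1 0 = 1 := congrFun hu 0
  have u1 : u.1 1 = 0 := congrFun hu 1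
  have u3 : u.1 3 = 0 := congrFun hu 2
  have v0 : v.1 0 = 0 := congrFun hv 0
  have v1 : v.1 1 = 1 := congrFun hv 1
  have v3 : v.1 3 = 0 := congrFun hv 2
  have w0 : w.1 0 = 0 := congrFun hw 0
  have w1 : w.1 1 = 0 := congrFun hw 1
  have w3 : w.1 3 = 1 := congrFun hw 2
  obtain ⟨a0, a1, a2, a3, a4, a5, a6⟩ := rows u.1 u.2
  obtain ⟨b0, b1, b2, b3, b4, b5, b6⟩ := rows v.1 v.2
  obtain ⟨c0, c1, c2, c3, c4, c5, c6⟩ := rows w.1 w.2
  -- the vector `u`
  have u5 : u.1 5 = 0 := by
    have : B 0 5 * u.1 5 = 0 := by rw [u1, u3] at a0; linear_combination a0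
    exact (mul_eq_zero.1 this).resolve_left (nz 0 5 (by decide))
  have u6 : u.1 6 ≠ 0 := by
    intro h
    rw [u0, u5, h] at a5
    exact nz 5 0 (by decide) (by linear_combination a5)
  rw [u3] at a2
  rw [u1] at a4
  rw [u5] at a6
  have E1 : B 4 4 * B 6 2 * B 2 6 + B 2 2 * B 6 4 * B 4 6 = 0 := by
    have : u.1 6 * (B 4 4 * B 6 2 * B 2 6 + B 2 2 * B 6 4 * B 4 6) = 0 := by
      linear_combination (B 4 4 * B 6 2) * a2 + (B 2 2 * B 6 4) * a4 - (B 2 2 * B 4 4) * a6
    exact (mul_eq_zero.1 this).resolve_left u6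
  -- the vector `v`
  have v4 : v.1 4 = 0 := by
    have : B 1 4 * v.1 4 = 0 := by rw [v0, v3] at b1; linear_combination b1
    exact (mul_eq_zero.1 this).resolve_left (nz 1 4 (by decide))
  have v6 : v.1 6 ≠ 0 := by
    intro h
    rw [v1, v4, h] at b4
    exact nz 4 1 (by decide) (by linear_combination b4)
  rw [v3] at b2
  rw [v0] at b5
  rw [v4] at b6
  have E2 : B 5 5 * B 6 2 * B 2 6 + B 2 2 * B 6 5 * B 5 6 = 0 := by
    have : v.1 6 * (B 5 5 * B 6 2 * B 2 6 + B 2 2 * B 6 5 * B 5 6) = 0 := by
      linear_combination (B 5 5 * B 6 2) * b2 + (B 2 2 * B 6 5) * b5 - (B 2 2 * B 5 5) * b6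
    exact (mul_eq_zero.1 this).resolve_left v6
  -- the vector `w`
  have w2 : w.1 2 = 0 := by
    have : B 3 2 * w.1 2 = 0 := by rw [w0, w1] at c3; linear_combination c3
    exact (mul_eq_zero.1 this).resolve_left (nz 3 2 (by decide))
  have w6 : w.1 6 ≠ 0 := by
    intro h
    rw [w2, w3, h] at c2
    exact nz 2 3 (by decide) (by linear_combination c2)
  rw [w0] at c5
  rw [w1] at c4
  rw [w2] at c6
  have E3 : B 5 5 * B 6 4 * B 4 6 + B 4 4 * B 6 5 * B 5 6 = 0 := by
    have : w.1 6 * (B 5 5 * B 6 4 * B 4 6 + B 4 4 * B 6 5 * B 5 6) = 0 := by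
      linear_combination (B 5 5 * B 6 4) * c4 + (B 4 4 * B 6 5) * c5 - (B 4 4 * B 5 5) * c6
    exact (mul_eq_zero.1 this).resolve_left w6
  have hfinal : 2 * (B 2 2 * B 4 4 * B 6 5 * B 5 6) = 0 := by
    linear_combination (-B 5 5) * E1 + (B 4 4) * E2 + (B 2 2) * E3
  have n1 := nz 2 2 (by decide)
  have n2 := nz 4 4 (by decide)
  have n3 := nz 6 5 (by decide)
  have n4 := nz 5 6 (by decide)
  exact absurd hfinal (by positivity)

theorem rank_add_nullity {m n : Type*} [Fintype m] [Fintype n] (B : Matrix m n ℝ) :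
    B.rank + finrank ℝ (LinearMap.ker B.mulVecLin) = Fintype.card n := by
  have h := LinearMap.finrank_range_add_finrank_ker B.mulVecLin
  rw [Matrix.rank, h]
  simp

/-- The nullity of a matrix with a zero block. -/
theorem nullity_block {B C : Matrix (Fin 7) (Fin 7) ℝ}
    {M : Matrix (Fin 7 ⊕ Fin 7) (Fin 7 ⊕ Fin 7) ℝ}
    (h11 : ∀ i j, M (Sum.inl i) (Sum.inl j) = 0)
    (h12 : ∀ i j, M (Sum.inl i) (Sum.inr j) = B i j)
    (h21 : ∀ i j, M (Sum.inr i) (Sum.inl j) = C i j) :
    finrank ℝ (LinearMap.ker M.mulVecLin) ≤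
      finrank ℝ (LinearMap.ker B.mulVecLin) + finrank ℝ (LinearMap.ker C.mulVecLin) := by
  let π : LinearMap.ker M.mulVecLin →ₗ[ℝ] (Fin 7 → ℝ) :=
    (LinearMap.funLeft ℝ ℝ (Sum.inr : Fin 7 → Fin 7 ⊕ Fin 7)).comp
      (LinearMap.ker M.mulVecLin).subtype
  have h := LinearMap.finrank_range_add_finrank_ker π
  have h1 : LinearMap.range π ≤ LinearMap.ker B.mulVecLin := by
    rintro _ ⟨v, rfl⟩
    have hv : M.mulVec v.1 = 0 := v.2
    change B.mulVec _ = 0
    ext i
    have hi : ∑ j, M (Sum.inl i) j * v.1 j = 0 := congrFun hv (Sum.inl i)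
    rw [Fintype.sum_sum_type] at hi
    simp only [h11, h12, zero_mul, Finset.sum_const_zero, zero_add] at hi
    exact hi
  have h1' := Submodule.finrank_mono h1
  let σ : LinearMap.ker π →ₗ[ℝ] (Fin 7 → ℝ) :=
    ((LinearMap.funLeft ℝ ℝ (Sum.inl : Fin 7 → Fin 7 ⊕ Fin 7)).comp
      (LinearMap.ker M.mulVecLin).subtype).comp (LinearMap.ker π).subtype
  have hy : ∀ v : LinearMap.ker π, ∀ j, v.1.1 (Sum.inr j) = 0 := by
    intro v j
    have : π v.1 = 0 := v.2
    exact congrFun this j
  have h2 : LinearMap.range σ ≤ LinearMap.ker C.mulVecLin := by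
    rintro _ ⟨v, rfl⟩
    have hv : M.mulVec v.1.1 = 0 := v.1.2
    change C.mulVec _ = 0
    ext i
    have hi : ∑ j, M (Sum.inr i) j * v.1.1 j = 0 := congrFun hv (Sum.inr i)
    rw [Fintype.sum_sum_type] at hi
    simp only [h21, hy v, mul_zero, Finset.sum_const_zero, add_zero] at hi
    exact hi
  have hσ : Function.Injective σ := by
    intro a b hab
    apply Subtype.ext
    apply Subtype.ext
    ext i
    rcases i with i | i
    · exact congrFun hab i
    · rw [hy a, hy b]
  have h2' := Submodule.finrank_mono h2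
  rw [LinearMap.finrank_range_of_inj hσ] at h2'
  omega

/-! ### The graph -/

/-- 63 lines (nine copies of each of the seven lines) and seven points. -/
abbrev Vt : Type := (Fin 7 × Fin 9) ⊕ Fin 7

/-- The adjacency relation. -/
def adjB : Vt → Vt → Bool
  | Sum.inl x, Sum.inr p => inc x.1 p
  | Sum.inr p, Sum.inl x => inc x.1 p
  | _, _ => false

/-- The incidence graph of the Fano plane with every line repeated nine times. -/
def G : SimpleGraph Vt where
  Adj u v := adjB u v = true
  symm := ⟨by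
    intro u v h
    rcases u with u | u <;> rcases v with v | v <;> exact h⟩
  loopless := ⟨by
    intro u h
    rcases u with u | u <;> simp [adjB] at h⟩

theorem adj_iff (u v : Vt) : G.Adj u v ↔ adjB u v = true := Iff.rfl

theorem real_rank {A : Matrix Vt Vt ℝ} (hA : IsPattern G A) : 9 ≤ A.rank := by
  classical
  obtain ⟨hsymm, hpat⟩ := hA
  by_cases hcase : ∃ l : Fin 7, ∀ c : Fin 9, A (Sum.inl (l, c)) (Sum.inl (l, c)) ≠ 0
  · obtain ⟨l, hl⟩ := hcase
    have hdiag : A.submatrix (fun c : Fin 9 => (Sum.inl (l, c) : Vt))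
        (fun c : Fin 9 => (Sum.inl (l, c) : Vt)) =
        diagonal (fun c => A (Sum.inl (l, c)) (Sum.inl (l, c))) := by
      ext c d
      rw [submatrix_apply]
      by_cases hcd : c = d
      · rw [hcd, diagonal_apply_eq]
      · rw [diagonal_apply_ne _ hcd]
        by_contra hne
        have := (hpat _ _ (by simpa using hcd)).1 hne
        simp [adj_iff, adjB] at this
    have hr := rank_submatrix_le A (fun c : Fin 9 => (Sum.inl (l, c) : Vt))
      (fun c : Fin 9 => (Sum.inl (l, c) : Vt))
    rw [hdiag, rank_diagonal] at hr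
    have hcard : Fintype.card {i : Fin 9 // A (Sum.inl (l, i)) (Sum.inl (l, i)) ≠ 0} = 9 := by
      rw [Fintype.card_of_subtype (Finset.univ : Finset (Fin 9))
        (fun i => ⟨fun _ => hl i, fun _ => Finset.mem_univ i⟩)]
      simp
    omega
  · push Not at hcase
    choose c hc using hcase
    let r : Fin 7 ⊕ Fin 7 → Vt := Sum.elim (fun l => Sum.inl (l, c l)) Sum.inr
    let B : Matrix (Fin 7) (Fin 7) ℝ := fun l p => A (Sum.inl (l, c l)) (Sum.inr p)
    have hB : ∀ l p, B l p ≠ 0 ↔ inc l p = true := by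
      intro l p
      exact hpat _ _ (by simp)
    have h11 : ∀ i j, (A.submatrix r r) (Sum.inl i) (Sum.inl j) = 0 := by
      intro i j
      change A (Sum.inl (i, c i)) (Sum.inl (j, c j)) = 0
      by_cases hij : i = j
      · rw [← hij]; exact hc i
      · by_contra hne
        have := (hpat _ _ (by
          intro h
          exact hij (congrArg Prod.fst (Sum.inl_injective h)))).1 hne
        simp [adj_iff, adjB] at this
    have h12 : ∀ i j, (A.submatrix r r) (Sum.inl i) (Sum.inr j) = B i j := fun i j => rfl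
    have h21 : ∀ i j, (A.submatrix r r) (Sum.inr i) (Sum.inl j) = Bᵀ i j :=
      fun i j => hsymm.apply _ _
    have hn := nullity_block h11 h12 h21
    have h1 := fano_ker hB
    have h2 : finrank ℝ (LinearMap.ker Bᵀ.mulVecLin) ≤ 2 := by
      have e1 := rank_add_nullity B
      have e2 := rank_add_nullity Bᵀ
      rw [rank_transpose] at e2
      omega
    have h3 := rank_add_nullity (A.submatrix r r)
    have h4 := rank_submatrix_le A r r
    have h5 : Fintype.card (Fin 7 ⊕ Fin 7) = 14 := by simp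
    omega

theorem card_Vt : Fintype.card Vt = 70 := by simp

theorem maxNullity_le : maxNullity G ≤ 61 := by
  unfold maxNullity
  rcases Set.eq_empty_or_nonempty {k | ∃ A : Matrix Vt Vt ℝ, IsPattern G A ∧ nullity A = k}
    with h | h
  · rw [h]; simp
  · refine csSup_le h ?_
    rintro k ⟨A, hA, rfl⟩
    have h1 := real_rank hA
    have h2 := rank_add_nullity A
    have h3 := card_Vt
    unfold nullity
    omega

/-- Homogeneous coordinates of the points and of the lines over the field with two elements,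
preceded by `1`. -/
def hom : Fin 7 → Fin 4 → ZMod 2 :=
  ![![1, 1, 0, 0], ![1, 0, 1, 0], ![1, 1, 1, 0], ![1, 0, 0, 1], ![1, 1, 0, 1], ![1, 0, 1, 1],
    ![1, 1, 1, 1]]

theorem hom_inc : ∀ l p : Fin 7, ∑ k, hom l k * hom p k = if inc l p = true then 1 else 0 := by
  decide

/-- The adjacency matrix over the field with two elements. -/
def A2 : Matrix Vt Vt (ZMod 2) := fun u v => if adjB u v = true then 1 else 0

/-- Left factor of `A2`. -/
def U2 : Matrix Vt (Fin 4 ⊕ Fin 4) (ZMod 2)
  | Sum.inl x, Sum.inl k => hom x.1 k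
  | Sum.inl _, Sum.inr _ => 0
  | Sum.inr _, Sum.inl _ => 0
  | Sum.inr p, Sum.inr k => hom p k

/-- Right factor of `A2`. -/
def W2 : Matrix (Fin 4 ⊕ Fin 4) Vt (ZMod 2)
  | Sum.inl k, Sum.inr p => hom p k
  | Sum.inl _, Sum.inl _ => 0
  | Sum.inr k, Sum.inl x => hom x.1 k
  | Sum.inr _, Sum.inr _ => 0

theorem A2_eq : A2 = U2 * W2 := by
  ext u v
  rw [Matrix.mul_apply, Fintype.sum_sum_type]
  rcases u with x | p <;> rcases v with y | q
  · simp [A2, U2, W2, adjB]
  · change (if inc x.1 q = true then (1 : ZMod 2) else 0) =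
      ∑ k, hom x.1 k * hom q k + ∑ _k : Fin 4, (0 : ZMod 2) * 0
    rw [hom_inc x.1 q]
    simp
  · change (if inc y.1 p = true then (1 : ZMod 2) else 0) =
      ∑ _k : Fin 4, (0 : ZMod 2) * 0 + ∑ k, hom p k * hom y.1 k
    rw [← hom_inc y.1 p]
    simp only [mul_zero, Finset.sum_const_zero, zero_add]
    exact Finset.sum_congr rfl (fun k _ => mul_comm _ _)
  · simp [A2, U2, W2, adjB]

theorem rank_A2 : A2.rank ≤ 8 := by
  rw [A2_eq]
  refine (rank_mul_le_left U2 W2).trans ((rank_le_card_width U2).trans ?_)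
  simp

theorem A2_pat : ∀ i j, i ≠ j → (A2 i j ≠ 0 ↔ G.Adj i j) := by
  intro i j _
  rw [adj_iff]
  unfold A2
  by_cases h : adjB i j = true
  · simp [h]
  · simp [h]

theorem le_zeroForcing {B : Finset Vt} (hB : IsZeroForcing G B) : 62 ≤ B.card := by
  have h1 := finrank_ker_le A2_pat hB
  have h2 := LinearMap.finrank_range_add_finrank_ker A2.mulVecLin
  have h3 := rank_A2
  have h4 : finrank (ZMod 2) (Vt → ZMod 2) = 70 := by
    rw [finrank_pi]; exact card_Vt
  rw [h4] at h2
  change finrank (ZMod 2) (LinearMap.range A2.mulVecLin) ≤ 8 at h3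
  omega

theorem le_zeroForcingNumber : 62 ≤ zeroForcingNumber G := by
  unfold zeroForcingNumber
  refine le_csInf ⟨(Finset.univ : Finset Vt).card, Finset.univ,
    fun v => Filled.init v (by simp), rfl⟩ ?_
  rintro k ⟨B, hB, rfl⟩
  exact le_zeroForcing hB

theorem G_conn : G.Connected := by
  have key : ∀ p q : Fin 7, G.Reachable (Sum.inr p) (Sum.inr q) := by
    intro p q
    have h : ∀ p q : Fin 7, ∃ l : Fin 7, inc l p = true ∧ inc l q = true := by decide
    obtain ⟨l, h1, h2⟩ := h p q
    have e1 : G.Adj (Sum.inr p) (Sum.inl (l, 0)) := h1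
    have e2 : G.Adj (Sum.inl (l, 0)) (Sum.inr q) := h2
    exact e1.reachable.trans e2.reachable
  have hline : ∀ x : Fin 7 × Fin 9, G.Reachable (Sum.inl x) (Sum.inr 0) := by
    intro x
    have h : ∀ l : Fin 7, ∃ p : Fin 7, inc l p = true := by decide
    obtain ⟨p, hp⟩ := h x.1
    have e1 : G.Adj (Sum.inl x) (Sum.inr p) := hp
    exact e1.reachable.trans (key p 0)
  have hall : ∀ u : Vt, G.Reachable u (Sum.inr 0) := by
    intro u
    rcases u with x | p
    · exact hline x
    · exact key p 0
  have : Nonempty Vt := ⟨Sum.inr 0⟩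
  exact SimpleGraph.Connected.mk (fun u v => (hall u).trans (hall v).symm)

theorem degree_three (x : Fin 7 × Fin 9) : (G.neighborSet (Sum.inl x)).ncard = 3 := by
  have h : G.neighborSet (Sum.inl x) =
      (((Finset.univ.filter (fun p : Fin 7 => inc x.1 p = true)).map
        ⟨Sum.inr, Sum.inr_injective⟩ : Finset Vt) : Set Vt) := by
    ext u
    rcases u with y | p
    · simp [adj_iff, adjB]
    · simp [adj_iff, adjB]
  rw [h, Set.ncard_coe_finset, Finset.card_map]
  have h3 : ∀ l : Fin 7, (Finset.univ.filter (fun p : Fin 7 => inc l p = true)).card = 3 := by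
    decide
  exact h3 x.1

/-- Q1 is false. The incidence graph `G` of the Fano plane with every line taken nine times
is connected and bipartite with sides of `63` and `7` vertices, every vertex of the larger side
has degree `3`, and `M(G) ≤ 61 < 62 ≤ Z(G)`. -/
theorem result : (maxNullity G ≤ 61 ∧ 62 ≤ zeroForcingNumber G) ∧ ¬ Q1 := by
  classical
  refine ⟨⟨maxNullity_le, le_zeroForcingNumber⟩, ?_⟩
  intro h
  have h1 := h Vt G (Finset.univ.map ⟨Sum.inl, Sum.inl_injective⟩)
    (Finset.univ.map ⟨Sum.inr, Sum.inr_injective⟩) G_conn ?_ ?_ ?_ ?_ ?_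
  · have h2 := maxNullity_le
    have h3 := le_zeroForcingNumber
    omega
  · rw [Finset.disjoint_left]
    intro u hu hu'
    rw [Finset.mem_map] at hu hu'
    obtain ⟨x, _, rfl⟩ := hu
    obtain ⟨y, _, hy⟩ := hu'
    simp at hy
  · ext u
    rcases u with x | p <;> simp
  · intro u v huv
    rcases u with x | p <;> rcases v with y | q
    · simp [adj_iff, adjB] at huv
    · left; simp
    · right; simp
    · simp [adj_iff, adjB] at huv
  · simp
  · intro x hx
    rw [Finset.mem_map] at hx
    obtain ⟨y, _, rfl⟩ := hx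
    exact degree_three y

end Pool.Agent.Results.MP_cfc379_co.FanoMultiples
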